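import Pool.Agent.Helper15.CK.Own

set_option autoImplicit false

/-!
A compact space `K` such that `C(K)` is isomorphic to its cube but not to its square; more
precisely two powers of `C(K)` are isomorphic exactly when the exponents have the same parity.
-/

namespace Pool.Agent.Results.MP_67fc43_an.ParityOfPowers

/-- `X` and `Y` are isomorphic: there is a bounded linear bijection `X → Y` -/
def Iso (X Y : Type) [NormedAddCommGroup X] [NormedSpace ℝ X] [NormedAddCommGroup Y]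
    [NormedSpace ℝ Y] : Prop :=
  ∃ T : X →L[ℝ] Y, Function.Bijective T

theorem iso_iff {X Y : Type} [NormedAddCommGroup X] [NormedSpace ℝ X] [NormedAddCommGroup Y]
    [NormedSpace ℝ Y] [CompleteSpace X] [CompleteSpace Y] : Iso X Y ↔ Nonempty (X ≃L[ℝ] Y) := by
  constructor
  · rintro ⟨T, hT⟩
    exact ⟨ContinuousLinearEquiv.ofBijective T (LinearMap.ker_eq_bot.2 hT.1)
      (LinearMap.range_eq_top.2 hT.2)⟩
  · rintro ⟨e⟩
    exact ⟨(e : X →L[ℝ] Y), e.bijective⟩

theorem result : ∃ (K : Type) (_ : TopologicalSpace K) (_ : CompactSpace K) (_ : T2Space K),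
    TotallyDisconnectedSpace K ∧
    (∃ D : Set K, D.Countable ∧ Dense D ∧ ∀ x ∈ D, IsOpen ({x} : Set K)) ∧
    ¬ Iso C(K, ℝ) (C(K, ℝ) × C(K, ℝ)) ∧
    Iso C(K, ℝ) (C(K, ℝ) × C(K, ℝ) × C(K, ℝ)) ∧
    ∀ m n : ℕ, 1 ≤ m → 1 ≤ n →
      (Iso (Fin m → C(K, ℝ)) (Fin n → C(K, ℝ)) ↔ m ≡ n [MOD 2]) := by
  obtain ⟨Γ⟩ := Pool.Agent.Helper15.CK.nonempty_family
  refine ⟨Γ.KK, inferInstance, inferInstance, inferInstance, inferInstance, Γ.isolated_dense,
    ?_, iso_iff.2 Γ.yes_cube, fun m n hm hn => ?_⟩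
  · rw [iso_iff, not_nonempty_iff]
    exact Γ.no_square
  · rw [iso_iff]
    exact Pool.Agent.Helper15.CK.pow_iff Γ.yes_cube Γ.no_square hm hn

end Pool.Agent.Results.MP_67fc43_an.ParityOfPowers
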